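import Mathlib

/-!
Online scheduling with rejection on three identical machines: the definitions used in the
statements, for the non-preemptive and for the preemptive model.
-/

namespace Pool.Agent.Lib.MP_41b9a7_lc

/-- A job: a positive running time and a positive penalty. -/
structure Job where
  time : ℝ
  penalty : ℝ
  time_pos : 0 < time
  penalty_pos : 0 < penalty

/-! ### The non-preemptive model -/

/-- A non-preemptive schedule of the job sequence `I` on the machines `0, 1, 2`: `none` means that
the job is rejected, `some i` that it is accepted and placed on machine `i`. -/
abbrev Schedule (I : List Job) : Type := Fin I.length → Option (Fin 3)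

/-- The completion time of machine `i`. -/
noncomputable def load (I : List Job) (σ : Schedule I) (i : Fin 3) : ℝ :=
  ∑ k, if σ k = some i then (I.get k).time else 0

/-- The cost of a non-preemptive schedule: the makespan plus the penalties of the rejected
jobs. -/
noncomputable def cost (I : List Job) (σ : Schedule I) : ℝ :=
  max (load I σ 0) (max (load I σ 1) (load I σ 2)) +
    ∑ k, if σ k = none then (I.get k).penalty else 0

/-- A deterministic online algorithm: the decision about a job is a function of the list of the
jobs that arrived before it and of the job. -/
abbrev OnlineAlgorithm : Type := List Job → Job → Option (Fin 3)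

/-- The schedule that the online algorithm `A` produces on `I`. -/
def run (A : OnlineAlgorithm) (I : List Job) : Schedule I := fun k => A (I.take k) (I.get k)

/-- The online algorithm `A` is `c`-competitive: on every job sequence its cost is at most `c`
times the cost of every schedule. -/
def IsCompetitive (A : OnlineAlgorithm) (c : ℝ) : Prop :=
  ∀ (I : List Job) (σ : Schedule I), cost I (run A I) ≤ c * cost I σ

/-! ### The preemptive model -/

/-- A time slot on a machine. -/
structure Slot where
  machine : Fin 3
  start : ℝ
  stop : ℝ

/-- The slots do not overlap in time. -/
def Slot.Apart (s s' : Slot) : Prop := s.stop ≤ s'.start ∨ s'.stop ≤ s.start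

/-- A preemptive schedule of the job sequence `I` on the machines `0, 1, 2`: `none` means that the
job is rejected, `some l` that it is accepted and processed in the slots of the list `l`. -/
abbrev PSchedule (I : List Job) : Type := Fin I.length → Option (List Slot)

/-- Feasibility of a preemptive schedule: the slots are proper, the slots of one job are pairwise
disjoint in time and their total length is the running time of the job, and no machine processes
two jobs at the same time. -/
structure Feasible (I : List Job) (σ : PSchedule I) : Prop where
  slot : ∀ k l, σ k = some l → ∀ s ∈ l, 0 ≤ s.start ∧ s.start < s.stop
  apart : ∀ k l, σ k = some l → l.Pairwise Slot.Apart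
  total : ∀ k l, σ k = some l → (l.map fun s => s.stop - s.start).sum = (I.get k).time
  machine : ∀ k k', k ≠ k' → ∀ l l', σ k = some l → σ k' = some l' →
    ∀ s ∈ l, ∀ s' ∈ l', s.machine = s'.machine → s.Apart s'

/-- The list of all slots of a preemptive schedule. -/
def slots (I : List Job) (σ : PSchedule I) : List Slot :=
  (List.ofFn σ).flatMap fun o => o.getD []

/-- The cost of a preemptive schedule: the makespan (the latest completion time of a slot, or `0`
if there is no slot) plus the penalties of the rejected jobs. -/
noncomputable def pcost (I : List Job) (σ : PSchedule I) : ℝ :=
  ((slots I σ).map Slot.stop).foldr max 0 + ∑ k, if σ k = none then (I.get k).penalty else 0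

/-- A deterministic online algorithm in the preemptive model: whether a job is accepted, and in
which slots it is processed, is a function of the list of the jobs that arrived before it and of
the job. -/
abbrev POnlineAlgorithm : Type := List Job → Job → Option (List Slot)

/-- The schedule that the preemptive online algorithm `A` produces on `I`. -/
def prun (A : POnlineAlgorithm) (I : List Job) : PSchedule I := fun k => A (I.take k) (I.get k)

/-- The preemptive online algorithm `A` always produces feasible schedules and is
`c`-competitive: on every job sequence its cost is at most `c` times the cost of every feasible
schedule. -/
def IsPCompetitive (A : POnlineAlgorithm) (c : ℝ) : Prop :=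
  (∀ I : List Job, Feasible I (prun A I)) ∧
    ∀ (I : List Job) (σ : PSchedule I), Feasible I σ → pcost I (prun A I) ≤ c * pcost I σ

end Pool.Agent.Lib.MP_41b9a7_lc
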