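import Pool.Agent.Lib.MP_41b9a7_lc.Core
import Pool.Agent.Lib.MP_41b9a7_lc.Defs

namespace Pool.Agent.Lib.MP_41b9a7_lc

open Classical in
/-- A least loaded machine. -/
noncomputable def argmin (L : Fin 3 → ℝ) : Fin 3 :=
  if L 0 ≤ L 1 ∧ L 0 ≤ L 2 then 0 else if L 1 ≤ L 2 then 1 else 2

theorem isMin_argmin (L : Fin 3 → ℝ) : IsMin L (argmin L) := by
  intro j
  unfold argmin
  split_ifs with h1 h2
  · fin_cases j
    · exact le_rfl
    · exact h1.1
    · exact h1.2
  · have h3 : L 1 ≤ L 0 := by
      by_contra h
      push Not at h
      exact h1 ⟨h.le, h.le.trans h2⟩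
    fin_cases j
    · exact h3
    · exact le_rfl
    · exact h2
  · push Not at h2
    have h3 : L 2 ≤ L 0 := by
      by_contra h
      push Not at h
      exact h1 ⟨(h.trans h2).le, h.le⟩
    fin_cases j
    · exact h3
    · exact h2.le
    · exact le_rfl

open Classical in
/-- The decision of the algorithm in a given state. -/
noncomputable def dec (s : State) (j : Job) : Option (Fin 3) :=
  if j.penalty ≤ j.time / 3 then none
  else if j.penalty + ka * s.r ≤ al * j.time then none
  else some (argmin s.L)

open Classical in
/-- The next state. -/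
noncomputable def next (s : State) (j : Job) : State :=
  if j.penalty ≤ j.time / 3 then ⟨s.L, s.R + j.penalty, s.r⟩
  else if j.penalty + ka * s.r ≤ al * j.time then ⟨s.L, s.R + j.penalty, s.r + j.penalty⟩
  else ⟨Function.update s.L (argmin s.L) (s.L (argmin s.L) + j.time), s.R, s.r⟩

theorem step_next (s : State) (j : Job) : Step j.time j.penalty s (next s j) := by
  unfold next
  split_ifs with h1 h2
  · exact Step.reject1 h1 rfl rfl rfl
  · exact Step.reject2 (lt_of_not_ge h1) h2 rfl rfl rfl
  · exact Step.accept (argmin s.L) (isMin_argmin s.L) (lt_of_not_ge h1) (le_of_not_ge h2) rfl rfl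
      rfl

theorem next_L (s : State) (j : Job) (i : Fin 3) :
    (next s j).L i = s.L i + if dec s j = some i then j.time else 0 := by
  unfold next dec
  split_ifs with h1 h2 h3 h4 h5 <;> simp_all [Function.update_apply]
  exact fun h => (h5 h.symm).elim

theorem next_R (s : State) (j : Job) :
    (next s j).R = s.R + if dec s j = none then j.penalty else 0 := by
  unfold next dec
  split_ifs <;> simp_all

/-- The state after a list of jobs. -/
noncomputable def stateOf (I : List Job) : State := I.foldl next ⟨fun _ => 0, 0, 0⟩

theorem stateOf_take (I : List Job) (k : ℕ) (hk : k < I.length) :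
    stateOf (I.take (k + 1)) = next (stateOf (I.take k)) (I.get ⟨k, hk⟩) := by
  unfold stateOf
  rw [← List.take_append_getElem hk, List.foldl_append]
  rfl

/-- Partial sums of a function on `Fin n`. -/
noncomputable def psum {n : ℕ} (g : Fin n → ℝ) (k : ℕ) : ℝ :=
  ∑ j ∈ Finset.range k, if h : j < n then g ⟨j, h⟩ else 0

theorem psum_zero {n : ℕ} (g : Fin n → ℝ) : psum g 0 = 0 := by simp [psum]

theorem psum_succ {n : ℕ} (g : Fin n → ℝ) (k : ℕ) (hk : k < n) :
    psum g (k + 1) = psum g k + g ⟨k, hk⟩ := by
  rw [psum, Finset.sum_range_succ, dif_pos hk]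
  rfl

theorem psum_all {n : ℕ} (g : Fin n → ℝ) : psum g n = ∑ j, g j := by
  rw [psum, Finset.sum_range]
  apply Finset.sum_congr rfl
  intro j _
  rw [dif_pos j.2]

/-- The online algorithm. -/
noncomputable def alg : OnlineAlgorithm := fun I j => dec (stateOf I) j

theorem load_run (I : List Job) (i : Fin 3) : load I (run alg I) i = (stateOf I).L i := by
  have key : ∀ k, k ≤ I.length →
      psum (fun j : Fin I.length => if run alg I j = some i then (I.get j).time else 0) k =
        (stateOf (I.take k)).L i := by
    intro k
    induction k with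
    | zero => intro _; rw [psum_zero]; rfl
    | succ k ih =>
      intro hk
      rw [psum_succ _ _ (by omega), ih (by omega), stateOf_take I k (by omega), next_L]
      rfl
  have h := key I.length le_rfl
  rw [psum_all, List.take_length] at h
  exact h

theorem rejected_run (I : List Job) :
    (∑ k, if run alg I k = none then (I.get k).penalty else 0) = (stateOf I).R := by
  have key : ∀ k, k ≤ I.length →
      psum (fun j : Fin I.length => if run alg I j = none then (I.get j).penalty else 0) k =
        (stateOf (I.take k)).R := by
    intro k
    induction k with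
    | zero => intro _; rw [psum_zero]; rfl
    | succ k ih =>
      intro hk
      rw [psum_succ _ _ (by omega), ih (by omega), stateOf_take I k (by omega), next_R]
      rfl
  have h := key I.length le_rfl
  rw [psum_all, List.take_length] at h
  exact h

/-- Comparison with the set `acc` of the jobs accepted by an offline solution of makespan `T`. -/
theorem main_bound (I : List Job) (acc : Fin I.length → Bool) (T : ℝ) (hT : 0 ≤ T)
    (h1 : ∀ k, acc k = true → (I.get k).time ≤ T)
    (h2 : (∑ k, if acc k = true then (I.get k).time else 0) ≤ 3 * T) (i : Fin 3) :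
    (stateOf I).L i + (stateOf I).R ≤
      cr * (T + ∑ k, if acc k = true then 0 else (I.get k).penalty) := by
  have key : ∀ k, k ≤ I.length →
      Inv T (psum (fun j => if acc j = true then (I.get j).time else 0) k)
        (psum (fun j => if acc j = true then 0 else (I.get j).penalty) k)
        (stateOf (I.take k)) := by
    intro k
    induction k with
    | zero =>
      intro _
      rw [psum_zero, psum_zero]
      have h3 : 0 ≤ (al - 1 / 3) * T := mul_nonneg (by linarith [al_lb]) hT
      refine ⟨0, 0, 0, 0, 0, 0, 0, le_rfl, le_rfl, le_rfl, le_rfl, le_rfl, le_rfl, le_rfl,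
        by norm_num, by norm_num, ?_, by norm_num, ?_, ?_, ?_, by norm_num, by linarith,
        by linarith, ?_⟩
      · simp [stateOf]
      · simp [stateOf]
      · simp [stateOf]
      · simp [stateOf]
      · intro i
        simp [stateOf]
    | succ k ih =>
      intro hk
      have hk' : k < I.length := by omega
      have h3 := inv_step hT (I.get ⟨k, hk'⟩).time_pos (I.get ⟨k, hk'⟩).penalty_pos
        (ih (by omega)) (step_next (stateOf (I.take k)) (I.get ⟨k, hk'⟩))
      rw [psum_succ _ _ hk', psum_succ _ _ hk', stateOf_take I k hk']
      by_cases ha : acc ⟨k, hk'⟩ = true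
      · simp only [ha, if_true, add_zero]
        exact h3.1 (h1 _ ha)
      · simp only [ha, Bool.false_eq_true, if_false, add_zero]
        exact h3.2
  have h := key I.length le_rfl
  rw [psum_all, psum_all, List.take_length] at h
  exact inv_final hT h h2 i

end Pool.Agent.Lib.MP_41b9a7_lc
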