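import Mathlib

/-!
The core inequality: a state machine that processes jobs one by one, compared with an arbitrary
set of accepted jobs of an offline solution.
-/

namespace Pool.Agent.Lib.MP_41b9a7_lc

/-- The threshold density for the first rejected job. -/
noncomputable def al : ℝ := (√13 - 2) / 3

/-- The weight of the penalties rejected before. -/
noncomputable def ka : ℝ := (7 - √13) / 9

/-- The competitive ratio. -/
noncomputable def cr : ℝ := (2 + √13) / 3

theorem sqrt13_sq : √13 * √13 = 13 := Real.mul_self_sqrt (by norm_num)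

theorem sqrt13_lb : (3605 : ℝ) / 1000 < √13 := by
  rw [Real.lt_sqrt (by norm_num)]
  norm_num

theorem sqrt13_ub : √13 < (3606 : ℝ) / 1000 := by
  rw [Real.sqrt_lt' (by norm_num)]
  norm_num

theorem al_mul_cr : al * cr = 1 := by
  have := sqrt13_sq
  unfold al cr
  linarith

theorem cr_eq : cr = al + 4 / 3 := by
  unfold al cr
  linarith

theorem ka_eq : ka = 1 - cr / 3 := by
  unfold ka cr
  linarith

theorem al_lb : (535 : ℝ) / 1000 < al := by
  have := sqrt13_lb
  unfold al
  linarith

theorem al_ub : al < (5354 : ℝ) / 10000 := by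
  have := sqrt13_ub
  unfold al
  linarith

theorem cr_lt_two : cr < 2 := by
  rw [cr_eq]
  linarith [al_ub]

/-- The state after some jobs have been processed: loads, total penalty rejected, and total
penalty rejected by the second clause. -/
structure State where
  L : Fin 3 → ℝ
  R : ℝ
  r : ℝ

/-- `i` is a least loaded machine. -/
def IsMin (L : Fin 3 → ℝ) (i : Fin 3) : Prop := ∀ j, L i ≤ L j

/-- One step of the algorithm on a job `(t, p)`. -/
inductive Step (t p : ℝ) (s s' : State) : Prop
  | reject1 (h : p ≤ t / 3) (hL : s'.L = s.L) (hR : s'.R = s.R + p) (hr : s'.r = s.r)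
  | reject2 (h : t / 3 < p) (h' : p + ka * s.r ≤ al * t) (hL : s'.L = s.L)
      (hR : s'.R = s.R + p) (hr : s'.r = s.r + p)
  | accept (i : Fin 3) (hi : IsMin s.L i) (h : t / 3 < p) (h' : al * t ≤ p + ka * s.r)
      (hL : s'.L = Function.update s.L i (s.L i + t)) (hR : s'.R = s.R) (hr : s'.r = s.r)

/-- The invariant. `SA` is the total time of the jobs accepted by the offline solution so far,
and `SB` the total penalty of the jobs that it rejected. -/
def Inv (T SA SB : ℝ) (s : State) : Prop :=
  ∃ V1 V2 vY x1 x2 PX PY : ℝ, 0 ≤ V1 ∧ 0 ≤ V2 ∧ 0 ≤ vY ∧ 0 ≤ x1 ∧ 0 ≤ x2 ∧ 0 ≤ PX ∧ 0 ≤ PY ∧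
    V1 + V2 + vY = SA ∧ PX + PY = SB ∧ s.R = x1 + x2 + PX ∧ x1 ≤ V1 / 3 ∧ x2 ≤ s.r ∧
    s.r ≤ x2 + PX ∧ s.L 0 + s.L 1 + s.L 2 ≤ vY + 3 * PY ∧ x2 ≤ al * V2 ∧
    x2 - V2 / 3 ≤ (al - 1 / 3) * T ∧ x2 ≤ 87 / 100 * T ∧
    ∀ i, s.L i ≤ vY / 3 + cr * PY + max (2 / 3 * T) (ka * cr * s.r)

theorem ka_lb : (3771 : ℝ) / 10000 < ka := by
  have := sqrt13_ub
  unfold ka
  linarith

theorem ka_ub : ka < (3773 : ℝ) / 10000 := by
  have := sqrt13_lb
  unfold ka
  linarith

theorem cr_lb : (1868 : ℝ) / 1000 < cr := by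
  rw [cr_eq]
  linarith [al_lb]

theorem cr_ub : cr < (1869 : ℝ) / 1000 := by
  rw [cr_eq]
  linarith [al_ub]

theorem inv_step {T SA SB t p : ℝ} {s s' : State} (hT : 0 ≤ T) (ht : 0 < t) (hp : 0 < p)
    (h : Inv T SA SB s) (hs : Step t p s s') :
    (t ≤ T → Inv T (SA + t) SB s') ∧ Inv T SA (SB + p) s' := by
  obtain ⟨V1, V2, vY, x1, x2, PX, PY, hV1, hV2, hvY, hx1, hx2, hPX, hPY, hSA, hSB, hR, h1, h2, h3,
    h4, h5, h6, h7, h8⟩ := h
  have hal := al_lb
  have hal' := al_ub
  have hka := ka_lb
  have hka' := ka_ub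
  have hcr := cr_lb
  have hcr' := cr_ub
  have hkc : 0 < ka * cr := by positivity
  have hr0 : 0 ≤ s.r := le_trans hx2 h2
  cases hs with
  | reject1 h hL hR' hr =>
    constructor
    · intro htT
      refine ⟨V1 + t, V2, vY, x1 + p, x2, PX, PY, by linarith, hV2, hvY, by linarith, hx2, hPX,
        hPY, by linarith, hSB, by linarith, by linarith, by rw [hr]; exact h2,
        by rw [hr]; exact h3, by rw [hL]; exact h4, h5, h6, h7, ?_⟩
      intro i
      rw [hL, hr]
      exact h8 i
    · refine ⟨V1, V2, vY, x1, x2, PX + p, PY, hV1, hV2, hvY, hx1, hx2, by linarith,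
        hPY, hSA, by linarith, by linarith, h1, by rw [hr]; exact h2,
        by rw [hr]; linarith, by rw [hL]; exact h4, h5, h6, h7, ?_⟩
      intro i
      rw [hL, hr]
      exact h8 i
  | reject2 h h' hL hR' hr =>
    have hmax : ∀ i, s'.L i ≤ vY / 3 + cr * PY + max (2 / 3 * T) (ka * cr * s'.r) := by
      intro i
      rw [hL, hr]
      have h9 : max (2 / 3 * T) (ka * cr * s.r) ≤ max (2 / 3 * T) (ka * cr * (s.r + p)) :=
        max_le_max le_rfl (mul_le_mul_of_nonneg_left (by linarith) hkc.le)
      linarith [h8 i]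
    constructor
    · intro htT
      have h9 : ka * x2 ≤ ka * s.r := mul_le_mul_of_nonneg_left h2 (by linarith)
      have h9' : 0 ≤ ka * x2 := mul_nonneg (by linarith) hx2
      have h13 : (al - 1 / 3) * t ≤ (al - 1 / 3) * T :=
        mul_le_mul_of_nonneg_left htT (by linarith)
      have h14 : al * t ≤ 5354 / 10000 * T := by
        calc al * t ≤ 5354 / 10000 * t := mul_le_mul_of_nonneg_right hal'.le ht.le
          _ ≤ 5354 / 10000 * T := mul_le_mul_of_nonneg_left htT (by norm_num)
      refine ⟨V1, V2 + t, vY, x1, x2 + p, PX, PY, hV1, by linarith, hvY, hx1, by linarith, hPX,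
        hPY, by linarith, hSB, by linarith, h1, by rw [hr]; linarith,
        by rw [hr]; linarith, by rw [hL]; exact h4, ?_, ?_, ?_, hmax⟩
      · linarith
      · have h11 : (1 - ka) * x2 = cr * x2 / 3 := by rw [ka_eq]; ring
        have h12 : cr * x2 ≤ V2 := by
          calc cr * x2 ≤ cr * (al * V2) := mul_le_mul_of_nonneg_left h5 (by linarith)
            _ = (al * cr) * V2 := by ring
            _ = V2 := by rw [al_mul_cr]; ring
        linarith
      · have h10 : ka * x2 ≤ (al - 1 / 3) * t := by linarith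
        have h17 : al * T ≤ 5354 / 10000 * T := mul_le_mul_of_nonneg_right hal'.le hT
        have h15 : (al - 1 / 3) * t ≤ 2021 / 10000 * T := by linarith
        have h16 : 3771 / 10000 * x2 ≤ ka * x2 := mul_le_mul_of_nonneg_right hka.le hx2
        linarith
    · refine ⟨V1, V2, vY, x1, x2, PX + p, PY, hV1, hV2, hvY, hx1, hx2, by linarith,
        hPY, hSA, by linarith, by linarith, h1, by rw [hr]; linarith,
        by rw [hr]; linarith, by rw [hL]; exact h4, h5, h6, h7, hmax⟩
  | accept i hi h h' hL hR' hr =>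
    have hsum : s'.L 0 + s'.L 1 + s'.L 2 = s.L 0 + s.L 1 + s.L 2 + t := by
      rw [hL]
      fin_cases i <;> simp [Function.update] <;> ring
    have hmin : 3 * s.L i ≤ s.L 0 + s.L 1 + s.L 2 := by
      linarith [hi 0, hi 1, hi 2]
    constructor
    · intro htT
      refine ⟨V1, V2, vY + t, x1, x2, PX, PY, hV1, hV2, by linarith, hx1, hx2, hPX,
        hPY, by linarith, hSB, by linarith, h1, by rw [hr]; exact h2,
        by rw [hr]; exact h3, by linarith, h5, h6, h7, ?_⟩
      intro j
      rw [hr]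
      by_cases hj : j = i
      · subst hj
        rw [hL, Function.update_self]
        have h9 := le_max_left (2 / 3 * T) (ka * cr * s.r)
        have h10 : PY ≤ cr * PY := le_mul_of_one_le_left hPY (by linarith)
        linarith
      · rw [hL, Function.update_of_ne hj]
        linarith [h8 j]
    · refine ⟨V1, V2, vY, x1, x2, PX, PY + p, hV1, hV2, hvY, hx1, hx2, hPX,
        by linarith, hSA, by linarith, by linarith, h1, by rw [hr]; exact h2,
        by rw [hr]; exact h3, by linarith, h5, h6, h7, ?_⟩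
      intro j
      rw [hr]
      by_cases hj : j = i
      · subst hj
        rw [hL, Function.update_self]
        have h9 := le_max_right (2 / 3 * T) (ka * cr * s.r)
        have h10 : t ≤ cr * p + ka * cr * s.r := by
          calc t = (al * cr) * t := by rw [al_mul_cr]; ring
            _ = cr * (al * t) := by ring
            _ ≤ cr * (p + ka * s.r) := by
              apply mul_le_mul_of_nonneg_left h'
              linarith
            _ = cr * p + ka * cr * s.r := by ring
        have h11 : PY ≤ cr * PY := le_mul_of_one_le_left hPY (by linarith)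
        linarith
      · rw [hL, Function.update_of_ne hj]
        have h11 : 0 ≤ cr * p := mul_nonneg (by linarith) hp.le
        linarith [h8 j]

theorem inv_final {T SA SB : ℝ} {s : State} (hT : 0 ≤ T) (h : Inv T SA SB s) (hSA : SA ≤ 3 * T)
    (i : Fin 3) : s.L i + s.R ≤ cr * (T + SB) := by
  obtain ⟨V1, V2, vY, x1, x2, PX, PY, hV1, hV2, hvY, hx1, hx2, hPX, hPY, hSA', hSB, hR, h1, h2, h3,
    h4, h5, h6, h7, h8⟩ := h
  have hal := al_lb
  have hal' := al_ub
  have hka := ka_lb
  have hka' := ka_ub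
  have hcr := cr_lb
  have hcr' := cr_ub
  have hc := cr_eq
  have h9 : s.L i + s.R ≤ (al + 2 / 3) * T + PX + cr * PY +
      max (2 / 3 * T) (ka * cr * s.r) := by
    have := h8 i
    rw [hR]
    linarith
  have h11 : PX ≤ cr * PX := le_mul_of_one_le_left hPX (by linarith)
  have h12 : cr * (T + SB) = al * T + 4 / 3 * T + cr * PX + cr * PY := by
    rw [← hSB]
    have : cr * T = al * T + 4 / 3 * T := by rw [hc]; ring
    linarith
  rcases max_cases (2 / 3 * T) (ka * cr * s.r) with ⟨h10, -⟩ | ⟨h10, -⟩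
  · rw [h10] at h9
    linarith
  · rw [h10] at h9
    have h13 : ka * cr ≤ 71 / 100 := by
      calc ka * cr ≤ 3773 / 10000 * (1869 / 1000) :=
            mul_le_mul hka'.le hcr'.le (by linarith) (by norm_num)
        _ ≤ 71 / 100 := by norm_num
    have h15 : 0 ≤ s.r := le_trans hx2 h2
    have h14 : ka * cr * s.r ≤ 71 / 100 * (87 / 100 * T + PX) := by
      calc ka * cr * s.r ≤ 71 / 100 * s.r := mul_le_mul_of_nonneg_right h13 h15
        _ ≤ 71 / 100 * (87 / 100 * T + PX) :=
          mul_le_mul_of_nonneg_left (by linarith) (by norm_num)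
    have h16 : 1868 / 1000 * PX ≤ cr * PX := mul_le_mul_of_nonneg_right hcr.le hPX
    linarith

end Pool.Agent.Lib.MP_41b9a7_lc
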