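import Pool.Agent.Lib.MP_41b9a7_lc.Algo

namespace Pool.Agent.Lib.MP_41b9a7_lc

/-! ### The non-preemptive model -/

theorem load_nonneg (I : List Job) (σ : Schedule I) (i : Fin 3) : 0 ≤ load I σ i := by
  apply Finset.sum_nonneg
  intro k _
  split_ifs
  · exact (I.get k).time_pos.le
  · exact le_rfl

theorem time_le_load (I : List Job) (σ : Schedule I) (k : Fin I.length) (i : Fin 3)
    (h : σ k = some i) : (I.get k).time ≤ load I σ i := by
  have h1 := Finset.single_le_sum (f := fun k => if σ k = some i then (I.get k).time else 0)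
    (s := Finset.univ) (fun j _ => by
      split_ifs
      · exact (I.get j).time_pos.le
      · exact le_rfl) (Finset.mem_univ k)
  simp only [h, if_true] at h1
  exact h1

theorem load_le_makespan (I : List Job) (σ : Schedule I) (i : Fin 3) :
    load I σ i ≤ max (load I σ 0) (max (load I σ 1) (load I σ 2)) := by
  fin_cases i
  · exact le_max_left _ _
  · exact (le_max_left _ _).trans (le_max_right _ _)
  · exact (le_max_right _ _).trans (le_max_right _ _)

theorem sum_accepted (I : List Job) (σ : Schedule I) :
    (∑ k, if (σ k).isSome = true then (I.get k).time else 0) =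
      load I σ 0 + load I σ 1 + load I σ 2 := by
  unfold load
  rw [← Finset.sum_add_distrib, ← Finset.sum_add_distrib]
  apply Finset.sum_congr rfl
  intro k _
  cases h : σ k with
  | none => simp
  | some i => fin_cases i <;> simp

theorem alg_competitive : IsCompetitive alg cr := by
  intro I σ
  have h0 := load_le_makespan I σ
  have hT : 0 ≤ max (load I σ 0) (max (load I σ 1) (load I σ 2)) :=
    (load_nonneg I σ 0).trans (le_max_left _ _)
  have h1 := main_bound I (fun k => (σ k).isSome) _ hT (by
    intro k hk
    obtain ⟨i, hi⟩ := Option.isSome_iff_exists.1 hk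
    exact (time_le_load I σ k i hi).trans (h0 i)) (by
    rw [sum_accepted]
    linarith [h0 0, h0 1, h0 2])
  have h2 : (∑ k, if (σ k).isSome = true then 0 else (I.get k).penalty) =
      ∑ k, if σ k = none then (I.get k).penalty else 0 := by
    apply Finset.sum_congr rfl
    intro k _
    cases h : σ k <;> simp
  rw [h2] at h1
  unfold cost
  rw [rejected_run, load_run, load_run, load_run]
  have h3 : max ((stateOf I).L 0) (max ((stateOf I).L 1) ((stateOf I).L 2)) =
      (stateOf I).L 0 ∨ max ((stateOf I).L 0) (max ((stateOf I).L 1) ((stateOf I).L 2)) =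
      (stateOf I).L 1 ∨ max ((stateOf I).L 0) (max ((stateOf I).L 1) ((stateOf I).L 2)) =
      (stateOf I).L 2 := by
    rcases max_choice ((stateOf I).L 0) (max ((stateOf I).L 1) ((stateOf I).L 2)) with h | h
    · exact Or.inl h
    · rcases max_choice ((stateOf I).L 1) ((stateOf I).L 2) with h' | h'
      · exact Or.inr (Or.inl (h.trans h'))
      · exact Or.inr (Or.inr (h.trans h'))
  rcases h3 with h3 | h3 | h3 <;> rw [h3]
  · exact h1 0
  · exact h1 1
  · exact h1 2

/-! ### The preemptive model -/

open MeasureTheory in
/-- Slots that are pairwise disjoint in time and lie between `0` and `T` have total length at most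
`T`. -/
theorem sum_length_le (T : ℝ) (hT : 0 ≤ T) (l : List Slot)
    (h1 : ∀ s ∈ l, 0 ≤ s.start ∧ s.start < s.stop) (h2 : l.Pairwise Slot.Apart)
    (h3 : ∀ s ∈ l, s.stop ≤ T) : (l.map fun s => s.stop - s.start).sum ≤ T := by
  have key : ∀ l : List Slot, (∀ s ∈ l, 0 ≤ s.start ∧ s.start < s.stop) →
      l.Pairwise Slot.Apart →
      ENNReal.ofReal (l.map fun s => s.stop - s.start).sum =
        volume (⋃ s ∈ l, Set.Ioo s.start s.stop) ∧ 0 ≤ (l.map fun s => s.stop - s.start).sum := by
    intro l
    induction l with
    | nil => intro _ _; simp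
    | cons s l ih =>
      intro h1 h2
      obtain ⟨h4, h5⟩ := ih (fun s' hs' => h1 s' (List.mem_cons_of_mem _ hs'))
        (List.pairwise_cons.1 h2).2
      have h6 := h1 s (List.mem_cons_self)
      rw [List.map_cons, List.sum_cons]
      refine ⟨?_, by linarith⟩
      rw [ENNReal.ofReal_add (by linarith) h5, h4]
      have h7 : (⋃ s' ∈ s :: l, Set.Ioo s'.start s'.stop) =
          Set.Ioo s.start s.stop ∪ ⋃ s' ∈ l, Set.Ioo s'.start s'.stop := by
        ext x
        simp
      rw [h7, measure_union, Real.volume_Ioo]
      · rw [Set.disjoint_left]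
        intro x hx hx'
        rw [Set.mem_iUnion₂] at hx'
        obtain ⟨s', hs', hx'⟩ := hx'
        rcases (List.pairwise_cons.1 h2).1 s' hs' with h8 | h8
        · exact absurd (hx.2.trans_le h8) (not_lt.2 hx'.1.le)
        · exact absurd (hx'.2.trans_le h8) (not_lt.2 hx.1.le)
      · have : {s' | s' ∈ l}.Countable := (List.finite_toSet l).countable
        exact MeasurableSet.biUnion this fun s' _ => measurableSet_Ioo
  obtain ⟨h4, h5⟩ := key l h1 h2
  have h6 : volume (⋃ s ∈ l, Set.Ioo s.start s.stop) ≤ volume (Set.Ioo 0 T) := by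
    apply measure_mono
    intro x hx
    rw [Set.mem_iUnion₂] at hx
    obtain ⟨s, hs, hx⟩ := hx
    exact ⟨(h1 s hs).1.trans_lt hx.1, hx.2.trans_le (h3 s hs)⟩
  rw [← h4, Real.volume_Ioo, sub_zero] at h6
  exact (ENNReal.ofReal_le_ofReal_iff hT).1 h6

theorem le_foldr_max (l : List ℝ) (x : ℝ) (h : x ∈ l) : x ≤ l.foldr max 0 := by
  induction l with
  | nil => simp at h
  | cons y l ih =>
    rw [List.foldr_cons]
    rcases List.mem_cons.1 h with rfl | h
    · exact le_max_left _ _
    · exact (ih h).trans (le_max_right _ _)

theorem foldr_max_le (l : List ℝ) (M : ℝ) (h0 : 0 ≤ M) (h : ∀ x ∈ l, x ≤ M) :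
    l.foldr max 0 ≤ M := by
  induction l with
  | nil => exact h0
  | cons y l ih =>
    rw [List.foldr_cons]
    exact max_le (h y List.mem_cons_self) (ih fun x hx => h x (List.mem_cons_of_mem _ hx))

theorem foldr_max_nonneg (l : List ℝ) : 0 ≤ l.foldr max 0 := by
  induction l with
  | nil => exact le_rfl
  | cons y l ih =>
    rw [List.foldr_cons]
    exact ih.trans (le_max_right _ _)

theorem mem_slots (I : List Job) (σ : PSchedule I) (s : Slot) :
    s ∈ slots I σ ↔ ∃ k l, σ k = some l ∧ s ∈ l := by
  unfold slots
  rw [List.mem_flatMap]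
  constructor
  · rintro ⟨o, ho, hs⟩
    obtain ⟨k, rfl⟩ := List.mem_ofFn.1 ho
    cases h : σ k with
    | none => rw [h] at hs; simp at hs
    | some l => rw [h] at hs; exact ⟨k, l, h, hs⟩
  · rintro ⟨k, l, h, hs⟩
    exact ⟨some l, List.mem_ofFn.2 ⟨k, h⟩, hs⟩

section Lower

variable {I : List Job} {σ : PSchedule I} (hσ : Feasible I σ)

include hσ in
theorem time_le_pmakespan (k : Fin I.length) (hk : (σ k).isSome = true) :
    (I.get k).time ≤ ((slots I σ).map Slot.stop).foldr max 0 := by
  obtain ⟨l, hl⟩ := Option.isSome_iff_exists.1 hk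
  rw [← hσ.total k l hl]
  apply sum_length_le _ (foldr_max_nonneg _) l (hσ.slot k l hl) (hσ.apart k l hl)
  intro s hs
  apply le_foldr_max
  exact List.mem_map_of_mem ((mem_slots I σ s).2 ⟨k, l, hl, hs⟩)

/-- The slots of job `k` on machine `i`. -/
def mslots (I : List Job) (σ : PSchedule I) (i : Fin 3) (k : Fin I.length) : List Slot :=
  ((σ k).getD []).filter fun s => s.machine = i

include hσ in
theorem machine_le (i : Fin 3) : (∑ k, ((mslots I σ i k).map fun s => s.stop - s.start).sum) ≤
    ((slots I σ).map Slot.stop).foldr max 0 := by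
  have hmem : ∀ k s, s ∈ mslots I σ i k → ∃ l, σ k = some l ∧ s ∈ l ∧ s.machine = i := by
    intro k s hs
    unfold mslots at hs
    rw [List.mem_filter] at hs
    cases h : σ k with
    | none => rw [h] at hs; simp at hs
    | some l => rw [h] at hs; exact ⟨l, rfl, hs.1, by simpa using hs.2⟩
  have h1 : (∑ k, ((mslots I σ i k).map fun s => s.stop - s.start).sum) =
      (((List.finRange I.length).flatMap (mslots I σ i)).map fun s => s.stop - s.start).sum := by
    have h2 : ∀ m : List (Fin I.length), ((m.flatMap (mslots I σ i)).map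
        fun s => s.stop - s.start).sum =
        (m.map fun k => ((mslots I σ i k).map fun s => s.stop - s.start).sum).sum := by
      intro m
      induction m with
      | nil => simp
      | cons k m ih => simp [ih]
    rw [h2, ← List.ofFn_eq_map, List.sum_ofFn]
  rw [h1]
  apply sum_length_le _ (foldr_max_nonneg _)
  · intro s hs
    obtain ⟨k, -, hk⟩ := List.mem_flatMap.1 hs
    obtain ⟨l, hl, hsl, -⟩ := hmem k s hk
    exact hσ.slot k l hl s hsl
  · rw [List.pairwise_flatMap]
    constructor
    · intro k _
      unfold mslots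
      cases h : σ k with
      | none => simp
      | some l => exact (hσ.apart k l h).filter _
    · apply (List.nodup_finRange I.length).imp
      intro k k' hkk' s hs s' hs'
      obtain ⟨l, hl, hsl, hm⟩ := hmem k s hs
      obtain ⟨l', hl', hsl', hm'⟩ := hmem k' s' hs'
      exact hσ.machine k k' hkk' l l' hl hl' s hsl s' hsl' (hm.trans hm'.symm)
  · intro s hs
    obtain ⟨k, -, hk⟩ := List.mem_flatMap.1 hs
    obtain ⟨l, hl, hsl, -⟩ := hmem k s hk
    apply le_foldr_max
    exact List.mem_map_of_mem ((mem_slots I σ s).2 ⟨k, l, hl, hsl⟩)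

theorem sum_filter_machine (l : List Slot) (f : Slot → ℝ) :
    ((l.filter fun s => s.machine = 0).map f).sum + ((l.filter fun s => s.machine = 1).map f).sum +
      ((l.filter fun s => s.machine = 2).map f).sum = (l.map f).sum := by
  induction l with
  | nil => simp
  | cons s l ih =>
    have h : s.machine = 0 ∨ s.machine = 1 ∨ s.machine = 2 := by
      generalize s.machine = i
      fin_cases i <;> simp
    rcases h with h | h | h <;> simp [h] <;> linarith

include hσ in
theorem psum_accepted : (∑ k, if (σ k).isSome = true then (I.get k).time else 0) ≤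
    3 * ((slots I σ).map Slot.stop).foldr max 0 := by
  have h1 : (∑ k, if (σ k).isSome = true then (I.get k).time else 0) =
      (∑ k, ((mslots I σ 0 k).map fun s => s.stop - s.start).sum) +
      (∑ k, ((mslots I σ 1 k).map fun s => s.stop - s.start).sum) +
      (∑ k, ((mslots I σ 2 k).map fun s => s.stop - s.start).sum) := by
    rw [← Finset.sum_add_distrib, ← Finset.sum_add_distrib]
    apply Finset.sum_congr rfl
    intro k _
    unfold mslots
    rw [sum_filter_machine]
    cases h : σ k with
    | none => simp
    | some l =>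
      simp only [Option.isSome_some, if_true, Option.getD_some]
      exact (hσ.total k l h).symm
  rw [h1]
  linarith [machine_le hσ 0, machine_le hσ 1, machine_le hσ 2]

end Lower

/-- The preemptive version of the algorithm: every accepted job gets a single slot. -/
noncomputable def palg : POnlineAlgorithm := fun I j =>
  (alg I j).map fun i => [⟨i, (stateOf I).L i, (stateOf I).L i + j.time⟩]

theorem palg_none (I : List Job) (j : Job) : palg I j = none ↔ alg I j = none := by
  unfold palg
  rw [Option.map_eq_none_iff]

theorem palg_some (I : List Job) (j : Job) (l : List Slot) (h : palg I j = some l) :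
    ∃ i, alg I j = some i ∧ l = [⟨i, (stateOf I).L i, (stateOf I).L i + j.time⟩] := by
  unfold palg at h
  obtain ⟨i, hi, rfl⟩ := Option.map_eq_some_iff.1 h
  exact ⟨i, hi, rfl⟩

theorem L_mono (I : List Job) (i : Fin 3) (k m : ℕ) (hkm : k ≤ m) (hm : m ≤ I.length) :
    (stateOf (I.take k)).L i ≤ (stateOf (I.take m)).L i := by
  induction m, hkm using Nat.le_induction with
  | base => exact le_rfl
  | succ m _ ih =>
    refine (ih (by omega)).trans ?_
    rw [stateOf_take I m (by omega), next_L]
    have := (I.get ⟨m, by omega⟩).time_pos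
    split_ifs <;> linarith

theorem L_nonneg (I : List Job) (i : Fin 3) (k : ℕ) (hk : k ≤ I.length) :
    0 ≤ (stateOf (I.take k)).L i := by
  have := L_mono I i 0 k (Nat.zero_le _) hk
  simpa [stateOf] using this

theorem L_succ (I : List Job) (i : Fin 3) (k : Fin I.length)
    (h : alg (I.take k) (I.get k) = some i) :
    (stateOf (I.take (k + 1))).L i = (stateOf (I.take k)).L i + (I.get k).time := by
  rw [stateOf_take I k k.2, next_L]
  have : dec (stateOf (I.take k)) (I.get ⟨k, k.2⟩) = some i := h
  rw [if_pos this]

theorem palg_feasible (I : List Job) : Feasible I (prun palg I) where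
  slot := by
    intro k l hl s hs
    obtain ⟨i, -, rfl⟩ := palg_some _ _ _ hl
    obtain rfl := List.mem_singleton.1 hs
    exact ⟨L_nonneg I i k k.2.le, by simpa using (I.get k).time_pos⟩
  apart := by
    intro k l hl
    obtain ⟨i, -, rfl⟩ := palg_some _ _ _ hl
    exact List.pairwise_singleton _ _
  total := by
    intro k l hl
    obtain ⟨i, -, rfl⟩ := palg_some _ _ _ hl
    simp
  machine := by
    have key : ∀ k k' : Fin I.length, k < k' → ∀ l l', prun palg I k = some l →
        prun palg I k' = some l' → ∀ s ∈ l, ∀ s' ∈ l', s.machine = s'.machine →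
        s.stop ≤ s'.start := by
      intro k k' hkk' l l' hl hl' s hs s' hs' hm
      obtain ⟨i, hi, rfl⟩ := palg_some _ _ _ hl
      obtain ⟨i', hi', rfl⟩ := palg_some _ _ _ hl'
      obtain rfl := List.mem_singleton.1 hs
      obtain rfl := List.mem_singleton.1 hs'
      simp only at hm
      subst hm
      simp only
      rw [← L_succ I i k hi]
      exact L_mono I i _ _ hkk' k'.2.le
    intro k k' hkk' l l' hl hl' s hs s' hs' hm
    rcases lt_or_gt_of_ne hkk' with h | h
    · exact Or.inl (key k k' h l l' hl hl' s hs s' hs' hm)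
    · exact Or.inr (key k' k h l' l hl' hl s' hs' s hs hm.symm)

theorem palg_competitive : IsPCompetitive palg cr := by
  refine ⟨palg_feasible, ?_⟩
  intro I σ hσ
  have h1 := main_bound I (fun k => (σ k).isSome) _ (foldr_max_nonneg _)
    (fun k hk => time_le_pmakespan hσ k hk) (psum_accepted hσ)
  have h2 : (∑ k, if (σ k).isSome = true then 0 else (I.get k).penalty) =
      ∑ k, if σ k = none then (I.get k).penalty else 0 := by
    apply Finset.sum_congr rfl
    intro k _
    cases h : σ k <;> simp
  rw [h2] at h1
  unfold pcost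
  have h3 : (∑ k, if prun palg I k = none then (I.get k).penalty else 0) = (stateOf I).R := by
    rw [← rejected_run]
    apply Finset.sum_congr rfl
    intro k _
    have : prun palg I k = none ↔ run alg I k = none := palg_none _ _
    simp only [this]
  rw [h3]
  have h4 : ∀ s ∈ slots I (prun palg I), s.stop ≤ (stateOf I).L s.machine := by
    intro s hs
    obtain ⟨k, l, hl, hsl⟩ := (mem_slots _ _ _).1 hs
    obtain ⟨i, hi, rfl⟩ := palg_some _ _ _ hl
    obtain rfl := List.mem_singleton.1 hsl
    simp only
    rw [← L_succ I i k hi]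
    have := L_mono I i (k + 1) I.length k.2 le_rfl
    rwa [List.take_length] at this
  have h5 : ((slots I (prun palg I)).map Slot.stop).foldr max 0 ≤
      cr * (((slots I σ).map Slot.stop).foldr max 0 +
        ∑ k, if σ k = none then (I.get k).penalty else 0) - (stateOf I).R := by
    apply foldr_max_le
    · have := L_nonneg I 0 I.length le_rfl
      rw [List.take_length] at this
      linarith [h1 0]
    · intro x hx
      obtain ⟨s, hs, rfl⟩ := List.mem_map.1 hx
      linarith [h1 s.machine, h4 s hs]
  linarith

end Pool.Agent.Lib.MP_41b9a7_lc
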